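import Pool.Agent.H143FP.Construct
import Pool.Agent.H143FP.LowerM

/-!
# MP_bd876b_pr, Q1: the sampling entropy of a fractal permuton need not converge

For every `q ≥ 37748736`, `d = q²` and `F` the point mass at the digit swap
`a q + b ↦ b q + a` of `{0, …, d - 1}`, almost surely `H_n(μ_F) / n` does not converge: it is at
most `2 log 2 + 1/2 < 1.89` along `n = d ^ k` and at least `5 log 2 - 1 > 2.46` along
`n = 1024 d ^ k`.
-/

open MeasureTheory ProbabilityTheory Filter Topology
open scoped ENNReal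

namespace Pool.Agent.Results.MP_bd876b_pr.Oscillates

open Pool.Agent.H143FP

lemma model_exists {d : ℕ} (σ : Equiv.Perm (Fin d)) :
    IsRefinementModel (d := d) (Measure.dirac ()) (PMF.pure σ) (fun _ _ => σ) := by
  classical
  refine ⟨fun w π => by simp, fun w π => ?_, ?_⟩
  · by_cases h : σ = π
    · subst h
      simp
    · have h' : ¬ π = σ := fun e => h e.symm
      simp [h, h']
  · rw [iIndepFun_iff_measure_inter_preimage_eq_mul]
    intro S sets _
    by_cases h : ∀ i ∈ S, σ ∈ sets i
    · have h1 : (⋂ i ∈ S, (fun _ : Unit => σ) ⁻¹' sets i) = Set.univ := by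
        ext u
        simp only [Set.mem_iInter, Set.mem_preimage, Set.mem_univ, iff_true]
        exact h
      rw [h1, Finset.prod_congr rfl (fun i hi => by
        have : (fun _ : Unit => σ) ⁻¹' sets i = Set.univ := by
          ext u
          simp only [Set.mem_preimage, Set.mem_univ, iff_true]
          exact h i hi
        rw [this])]
      simp
    · push Not at h
      obtain ⟨i, hi, hn⟩ := h
      have h1 : (⋂ i ∈ S, (fun _ : Unit => σ) ⁻¹' sets i) = ∅ := by
        ext u
        simp only [Set.mem_iInter, Set.mem_preimage, Set.mem_empty_iff_false, iff_false]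
        intro h2
        exact hn (h2 i hi)
      have h2 : (fun _ : Unit => σ) ⁻¹' sets i = ∅ := by
        ext u
        simp only [Set.mem_preimage, Set.mem_empty_iff_false, iff_false]
        exact hn
      rw [h1, measure_empty, eq_comm, Finset.prod_eq_zero hi]
      rw [h2, measure_empty]

/-- For every `q ≥ 37748736`, with `d = q²` and `F` the point mass at the digit swap: the
refinement model exists, and in every refinement model, almost surely the refinements have a weak
limit `μ` (and only one), which is a permuton, `H_n(μ) ≤ (2 log 2 + 1/2) n` for `n = d ^ k`,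
`H_n(μ) ≥ (5 log 2 - 1) n` for `n = 1024 d ^ k`, and `H_n(μ) / n` does not converge. -/
theorem result (q : ℕ) (hq : 37748736 ≤ q) :
    (∃ (Ω : Type) (_ : MeasurableSpace Ω) (P : Measure Ω) (_ : IsProbabilityMeasure P)
      (τ : List (Fin (q * q)) → Ω → Equiv.Perm (Fin (q * q))),
      IsRefinementModel P (PMF.pure (swapPerm q)) τ) ∧
    ∀ (Ω : Type) [MeasurableSpace Ω] (P : Measure Ω) [IsProbabilityMeasure P]
      (τ : List (Fin (q * q)) → Ω → Equiv.Perm (Fin (q * q))),
      IsRefinementModel P (PMF.pure (swapPerm q)) τ →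
      ∀ᵐ ω ∂P, ∃ μ : Measure (ℝ × ℝ), IsProbabilityMeasure μ ∧ IsPermuton μ ∧
        WeakLimit (refined fun w => τ w ω) μ ∧
        (∀ μ' : Measure (ℝ × ℝ), IsProbabilityMeasure μ' →
          WeakLimit (refined fun w => τ w ω) μ' → μ' = μ) ∧
        (∀ k : ℕ, samplingEntropy μ ((q * q) ^ k) ≤
          (2 * Real.log 2 + 1 / 2) * (((q * q) ^ k : ℕ) : ℝ)) ∧
        (∀ k : ℕ, (5 * Real.log 2 - 1) * ((1024 * (q * q) ^ k : ℕ) : ℝ) ≤
          samplingEntropy μ (1024 * (q * q) ^ k)) ∧
        ¬ ∃ c : ℝ, Tendsto (fun n : ℕ => samplingEntropy μ n / n) atTop (𝓝 c) := by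
  refine ⟨⟨Unit, inferInstance, Measure.dirac (), inferInstance, fun _ _ => swapPerm q,
    model_exists _⟩, ?_⟩
  intro Ω _ P _ τ hτ
  have hq0 : 0 < q := by omega
  have hqq : 2 ≤ q * q := by nlinarith
  have hqqR : (1 : ℝ) < ((q * q : ℕ) : ℝ) := by exact_mod_cast (by omega : 1 < q * q)
  have : NeZero (q * q) := ⟨by omega⟩
  -- all permutations are the digit swap
  have hall : ∀ᵐ ω ∂P, ∀ w, τ w ω = swapPerm q := by
    rw [ae_all_iff]
    intro w
    have h1 := hτ.law w (swapPerm q)
    have h2 : P {ω | τ w ω = swapPerm q} = 1 := by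
      rw [h1]; simp
    exact (prob_compl_eq_zero_iff (hτ.meas w _)).2 h2
  filter_upwards [hall] with ω hω
  have hfun : (fun w => τ w ω) = fun _ => swapPerm q := funext hω
  rw [hfun]
  have hself := selfSim_muS (swapPerm q)
  have hweak := weakLimit_of_selfSim hqq hself (muS_mem (swapPerm q))
  have hlt := muS_lt (swapPerm q) hqq
  have hup : ∀ k : ℕ, samplingEntropy (muS (swapPerm q)) ((q * q) ^ k) ≤
      (2 * Real.log 2 + 1 / 2) * (((q * q) ^ k : ℕ) : ℝ) := by
    intro k
    have h1 := entropy_upper hself (by omega) hlt k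
    rw [Nat.cast_pow]
    linarith
  have hlow : ∀ k : ℕ, (5 * Real.log 2 - 1) * ((1024 * (q * q) ^ k : ℕ) : ℝ) ≤
      samplingEntropy (muS (swapPerm q)) (1024 * (q * q) ^ k) := by
    intro k
    have h1 := entropy_lower 1024 (by norm_num; omega) hq0 hself hlt k
    refine le_trans ?_ h1
    have h2 := log_factorial_ge' 1024 (by norm_num)
    have h3 : Real.log ((1024 : ℕ) : ℝ) = 10 * Real.log 2 := by
      have : ((1024 : ℕ) : ℝ) = (2 : ℝ) ^ (10 : ℕ) := by norm_num
      rw [this, Real.log_pow]
      norm_num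
    rw [h3] at h2
    have hpos : (0 : ℝ) < ((q * q : ℕ) : ℝ) ^ k := by positivity
    have h4 : ((q * q : ℕ) : ℝ) ^ k * (((1024 : ℕ) : ℝ) * (10 * Real.log 2) - ((1024 : ℕ) : ℝ)) ≤
        ((q * q : ℕ) : ℝ) ^ k * Real.log ((1024 : ℕ).factorial) :=
      mul_le_mul_of_nonneg_left h2 hpos.le
    have h5 : ((1024 * (q * q) ^ k : ℕ) : ℝ) = 1024 * ((q * q : ℕ) : ℝ) ^ k := by
      rw [Nat.cast_mul, Nat.cast_pow]
      norm_num
    rw [h5]
    have h6 : ((1024 : ℕ) : ℝ) = 1024 := by norm_num
    rw [h6] at h4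
    clear h1 h2 h3 h5 hup
    generalize Real.log ((1024 : ℕ).factorial) = LF at h4 ⊢
    generalize ((q * q : ℕ) : ℝ) ^ k = D at h4 ⊢
    linarith
  refine ⟨muS (swapPerm q), inferInstance, isPermuton_muS _ hqq, hweak, ?_, hup, hlow, ?_⟩
  · intro μ' _ hμ'
    exact weakLimit_unique hμ' hweak
  · rintro ⟨c, hc⟩
    have hdk : Tendsto (fun k : ℕ => (q * q) ^ k) atTop atTop :=
      tendsto_pow_atTop_atTop_of_one_lt (by omega)
    have hdk2 : Tendsto (fun k : ℕ => 1024 * (q * q) ^ k) atTop atTop :=
      hdk.const_mul_atTop' (by norm_num)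
    have c1 : c ≤ 2 * Real.log 2 + 1 / 2 := by
      refine le_of_tendsto (hc.comp hdk) (Eventually.of_forall fun k => ?_)
      have hpos : (0 : ℝ) < (((q * q) ^ k : ℕ) : ℝ) := by
        exact_mod_cast Nat.pow_pos (by omega : 0 < q * q)
      simp only [Function.comp_apply]
      rw [div_le_iff₀ hpos]
      exact hup k
    have c2 : 5 * Real.log 2 - 1 ≤ c := by
      refine ge_of_tendsto (hc.comp hdk2) (Eventually.of_forall fun k => ?_)
      have hpos : (0 : ℝ) < ((1024 * (q * q) ^ k : ℕ) : ℝ) := by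
        have : 0 < 1024 * (q * q) ^ k := Nat.mul_pos (by norm_num) (Nat.pow_pos (by omega))
        exact_mod_cast this
      simp only [Function.comp_apply]
      rw [le_div_iff₀ hpos]
      exact hlow k
    have := Real.log_two_gt_d9
    linarith

end Pool.Agent.Results.MP_bd876b_pr.Oscillates
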